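import Pool.Agent.V11276.TD

/-! MP_7f2dba_nt, Q1: `ν₃(S_m(n)/n) ≥ min{ν₃(n), ν₃(m-1)} - 1`. -/

namespace Pool.Agent.Results.MP_7f2dba_nt.QuestionOne

/-- The 3-adic valuation of a rational number, with `ν₃(0) = +∞`. -/
noncomputable def nu (x : ℚ) : WithTop ℤ :=
  if x = 0 then ⊤ else ((padicValRat 3 x : ℤ) : WithTop ℤ)

/-- `S_m(n) = ∑_{0 ≤ k < n} (-1)^k C(n-1,k) C(2k,k) m^{-k}` -/
def S (m : ℤ) (n : ℕ) : ℚ :=
  ∑ k ∈ Finset.range n, (-1) ^ k * ((n - 1).choose k : ℚ) * ((2 * k).choose k : ℚ) / (m : ℚ) ^ k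

open Pool.Agent.V11276.TT

/-- the core of Q1: `T/n` -/
theorem core (m : ℤ) (hm : m % 3 = 1) (n : ℕ) (hn : 1 ≤ n) (c : ℕ)
    (h1 : 3 ^ (c + 1) ∣ n) (h2 : ((3 ^ (c + 1) : ℕ) : ℤ) ∣ m - 1) :
    (3 : ℤ_[3]) ^ c ∣ xx (2 - m) (by omega) n := by
  obtain ⟨M, rfl⟩ := h1
  have h := Q1core (2 - m) (by omega) c M (by
    rw [show 2 - m - 1 = -(m - 1) by ring]; exact (dvd_neg).2 h2) (by
    rcases Nat.eq_zero_or_pos M with rfl | h
    · omega
    · exact h)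
  rw [show 3 ^ (c + 1) * M = 3 * (3 ^ c * M) by ring]
  exact h

/-- the valuation of `S/n` -/
theorem val_ge (m : ℤ) (hm : m % 3 = 1) (n : ℕ) (hn : 1 ≤ n) (c : ℕ)
    (h : (3 : ℤ_[3]) ^ c ∣ xx (2 - m) (by omega) n) (hS : S m n / n ≠ 0) :
    (c : ℤ) ≤ padicValRat 3 (S m n / n) := by
  have hm0 : m ≠ 0 := by rintro rfl; simp at hm
  have hm' : (m : ℚ) ≠ 0 := by exact_mod_cast hm0
  have hn' : (n : ℚ) ≠ 0 := by
    have : n ≠ 0 := by omega
    exact_mod_cast this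
  have e1 : S m n = (T (2 - m) (n - 1) : ℚ) / (-m : ℚ) ^ (n - 1) := S_T m hm0 n hn
  have hT : T (2 - m) (n - 1) ≠ 0 := by
    intro h0
    rw [e1, h0] at hS
    simp at hS
  have hv : 3 ^ (padicValNat 3 n) ∣ n := pow_padicValNat_dvd
  obtain ⟨n', hn1⟩ := hv
  obtain ⟨y, hy⟩ := h
  have h3 : ((3 : ℕ) : ℤ_[3]) ^ (padicValNat 3 n + c) ∣ ((T (2 - m) (n - 1) : ℤ) : ℤ_[3]) := by
    rw [T_eq (2 - m) (by omega) n hn, hy]
    have : (n : ℤ_[3]) = 3 ^ (padicValNat 3 n) * (n' : ℤ_[3]) := by exact_mod_cast congrArg (Nat.cast (R := ℤ_[3])) hn1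
    rw [this]
    exact ⟨n' * y, by push_cast; ring⟩
  rw [PadicInt.pow_p_dvd_int_iff, padicValInt_dvd_iff] at h3
  rcases h3 with h3 | h3
  · exact absurd h3 hT
  · have e2 : S m n / n = (T (2 - m) (n - 1) : ℚ) / ((-m : ℚ) ^ (n - 1) * n) := by
      rw [e1, div_div]
    have hT' : ((T (2 - m) (n - 1) : ℤ) : ℚ) ≠ 0 := by exact_mod_cast hT
    have hneg : (-(m : ℚ)) ≠ 0 := neg_ne_zero.2 hm'
    rw [e2, padicValRat.div hT' (mul_ne_zero (pow_ne_zero _ hneg) hn'),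
      padicValRat.mul (pow_ne_zero _ hneg) hn', padicValRat.pow, padicValRat.neg,
      padicValRat.of_int, padicValRat.of_int, padicValRat.of_nat]
    have hm3 : padicValInt 3 m = 0 := by
      apply padicValInt.eq_zero_of_not_dvd
      push_cast
      omega
    rw [hm3, Nat.cast_zero, mul_zero, zero_add]
    omega

theorem Q1 (m : ℤ) (hm : m % 3 = 1) (n : ℕ) (hn : 1 ≤ n) :
    min (nu (n : ℚ)) (nu ((m : ℚ) - 1)) + ((-1 : ℤ) : WithTop ℤ) ≤ nu (S m n / n) := by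
  have hn' : (n : ℚ) ≠ 0 := by
    have : n ≠ 0 := by omega
    exact_mod_cast this
  by_cases hS : S m n / n = 0
  · unfold nu
    rw [if_pos hS]
    exact le_top
  · have e3 : nu (S m n / n) = ((padicValRat 3 (S m n / n) : ℤ) : WithTop ℤ) := if_neg hS
    have h0 := val_ge m hm n hn 0 (by simp) hS
    obtain ⟨t, ht⟩ : ∃ t : ℕ, padicValRat 3 (S m n / n) = t := ⟨_, (Int.toNat_of_nonneg (by simpa using h0)).symm⟩
    rw [e3]
    by_contra hlt
    rw [not_le] at hlt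
    have key : 3 ^ (t + 2) ∣ n ∧ ((3 ^ (t + 2) : ℕ) : ℤ) ∣ m - 1 := by
      have hn3 : nu (n : ℚ) = ((padicValNat 3 n : ℤ) : WithTop ℤ) := by
        unfold nu
        rw [if_neg hn', padicValRat.of_nat]
      rw [hn3, ht] at hlt
      by_cases hm1 : m = 1
      · have h5 : nu ((m : ℚ) - 1) = ⊤ := by unfold nu; rw [if_pos (by rw [hm1]; norm_num)]
        rw [h5, min_eq_left le_top, ← WithTop.coe_add, WithTop.coe_lt_coe] at hlt
        refine ⟨?_, by rw [hm1]; simp⟩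
        rw [padicValNat_dvd_iff]
        right; omega
      · have hm1' : (m : ℚ) - 1 ≠ 0 := by
          rw [sub_ne_zero]; exact_mod_cast hm1
        have h5 : nu ((m : ℚ) - 1) = ((padicValInt 3 (m - 1) : ℤ) : WithTop ℤ) := by
          unfold nu
          rw [if_neg hm1', show ((m : ℚ) - 1) = ((m - 1 : ℤ) : ℚ) by push_cast; ring,
            padicValRat.of_int]
        rw [h5, ← WithTop.coe_min, ← WithTop.coe_add, WithTop.coe_lt_coe] at hlt
        constructor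
        · rw [padicValNat_dvd_iff]
          right; omega
        · push_cast
          have := (padicValInt_dvd_iff (p := 3) (t + 2) (m - 1)).2 (Or.inr (by omega))
          exact_mod_cast this
    have h6 := core m hm n hn (t + 1) key.1 key.2
    have h7 := val_ge m hm n hn (t + 1) h6 hS
    rw [ht] at h7
    push_cast at h7
    omega

/-- **MP_7f2dba_nt**, Q1. -/
theorem result : ∀ m : ℤ, m % 3 = 1 → ∀ n : ℕ, 1 ≤ n →
    min (nu (n : ℚ)) (nu ((m : ℚ) - 1)) + ((-1 : ℤ) : WithTop ℤ) ≤ nu (S m n / n) :=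
  Q1

end Pool.Agent.Results.MP_7f2dba_nt.QuestionOne
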