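import Pool.Agent.V11276.TD

/-! MP_7f2dba_nt, Q2: both refinements at `n = 3^a` hold. -/

namespace Pool.Agent.Results.MP_7f2dba_nt.QuestionTwo

/-- `S_m(n) = ∑_{0 ≤ k < n} (-1)^k C(n-1,k) C(2k,k) m^{-k}` -/
def S (m : ℤ) (n : ℕ) : ℚ :=
  ∑ k ∈ Finset.range n, (-1) ^ k * ((n - 1).choose k : ℚ) * ((2 * k).choose k : ℚ) / (m : ℚ) ^ k

/-- Congruence modulo `3^e` in `ℤ_(3)`: the difference is `3^e` times a rational number whose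
denominator is prime to 3. -/
def Cong (e : ℕ) (x y : ℚ) : Prop := ∃ u : ℚ, ¬ 3 ∣ u.den ∧ x - y = 3 ^ e * u

open Pool.Agent.V11276.TT

theorem den_ok (q : ℤ) (m : ℤ) (hm : m % 3 = 1) (k : ℕ) : ¬ 3 ∣ ((q : ℚ) / (m : ℚ) ^ k).den := by
  intro h
  have h1 : (((q : ℚ) / (m : ℚ) ^ k).den : ℤ) ∣ m ^ k := by
    have := Rat.den_dvd q (m ^ k)
    rwa [Rat.divInt_eq_div, show ((m ^ k : ℤ) : ℚ) = (m : ℚ) ^ k by push_cast; rfl] at this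
  have h2 : (3 : ℤ) ∣ m ^ k := (by exact_mod_cast h : (3 : ℤ) ∣ _).trans h1
  have h3 : (3 : ℤ) ∣ m := Int.prime_three.dvd_of_dvd_pow h2
  omega

theorem Q2a (m : ℤ) (hm : m % 3 = 1) (hm1 : m ≠ 1) (a : ℕ) (ha : padicValInt 3 (m - 1) < a) :
    Cong (padicValInt 3 (m - 1)) (S m (3 ^ a) / 3 ^ a) (-(((m : ℚ) - 1) / 3)) := by
  have hm0 : m ≠ 0 := by rintro rfl; simp at hm
  have hm' : (m : ℚ) ≠ 0 := by exact_mod_cast hm0
  obtain ⟨β, hβ⟩ : ∃ β, 2 - m = 1 + 3 * β := ⟨(1 - m) / 3, by omega⟩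
  have hm1' : m - 1 ≠ 0 := sub_ne_zero.2 hm1
  have he : 1 ≤ padicValInt 3 (m - 1) := by
    have := (padicValInt_dvd_iff (p := 3) 1 (m - 1)).1 (by rw [pow_one]; push_cast; omega)
    rcases this with h | h
    · exact absurd h hm1'
    · exact h
  obtain ⟨e, he'⟩ := Nat.exists_eq_add_of_le' he
  obtain ⟨c, rfl⟩ : ∃ c, a = c + 2 := ⟨a - 2, by omega⟩
  have hdvd : ((3 ^ (e + 1) : ℕ) : ℤ) ∣ m - 1 := by
    have := (padicValInt_dvd_iff (p := 3) (e + 1) (m - 1)).2 (Or.inr (by omega))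
    exact_mod_cast this
  have h1 := Q2a_core β (by omega) e c (by
    rw [show 3 * β = -(m - 1) by linarith]; exact dvd_neg.2 hdvd) (by omega)
  have hn : 1 ≤ 3 ^ (c + 2) := Nat.one_le_pow _ _ (by norm_num)
  have h2 := T_eq (1 + 3 * β) (by omega) (3 ^ (c + 2)) hn
  have h3 : ((3 : ℕ) : ℤ_[3]) ^ (c + 2) ∣ ((T (1 + 3 * β) (3 ^ (c + 2) - 1) : ℤ) : ℤ_[3]) := by
    rw [h2]; push_cast; exact Dvd.intro _ rfl
  rw [PadicInt.pow_p_dvd_int_iff] at h3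
  obtain ⟨t, ht⟩ := h3
  have h4 : xx (1 + 3 * β) (by omega) (3 ^ (c + 2)) = (t : ℤ_[3]) := by
    rw [ht] at h2
    push_cast at h2
    have h0 : (3 : ℤ_[3]) ^ (c + 2) ≠ 0 := by
      have := ncz (j := 3 ^ (c + 2)) hn
      push_cast at this
      exact this
    exact (mul_left_cancel₀ h0 h2).symm
  rw [h4] at h1
  have h5 : ((3 : ℕ) : ℤ_[3]) ^ (e + 1) ∣ ((t - β : ℤ) : ℤ_[3]) := by
    push_cast; exact h1
  rw [PadicInt.pow_p_dvd_int_iff] at h5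
  obtain ⟨x, hx⟩ := h5
  have h6 : ((3 ^ (e + 1) : ℕ) : ℤ) ∣ m ^ (3 ^ (c + 2) - 1) - 1 := by
    have := sub_dvd_pow_sub_pow m 1 (3 ^ (c + 2) - 1)
    rw [one_pow] at this
    exact hdvd.trans this
  obtain ⟨z, hz⟩ := h6
  have heven : Even (3 ^ (c + 2) - 1) := by
    rw [Nat.even_sub hn]
    constructor
    · intro h; exact absurd h (Nat.not_even_iff_odd.2 ((by decide : Odd 3).pow))
    · intro h; exact absurd h (by decide)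
  have e1 : S m (3 ^ (c + 2)) =
      (T (2 - m) (3 ^ (c + 2) - 1) : ℚ) / (-m : ℚ) ^ (3 ^ (c + 2) - 1) :=
    S_T m hm0 _ hn
  rw [heven.neg_pow] at e1
  rw [he']
  refine ⟨((x - β * z : ℤ) : ℚ) / (m : ℚ) ^ (3 ^ (c + 2) - 1), den_ok _ m hm _, ?_⟩
  rw [e1, hβ, ht]
  have hb : ((m : ℚ) - 1) / 3 = -β := by
    have : (m : ℚ) = 1 - 3 * β := by
      have : m = 1 - 3 * β := by linarith
      rw [this]; push_cast; ring
    rw [this]; ring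
  rw [hb]
  have hmp : (m : ℚ) ^ (3 ^ (c + 2) - 1) ≠ 0 := pow_ne_zero _ hm'
  have h3p : (3 : ℚ) ^ (c + 2) ≠ 0 := by positivity
  have hxq : (t : ℚ) - β = 3 ^ (e + 1) * x := by exact_mod_cast congrArg (Int.cast (R := ℚ)) hx
  have hzq : (m : ℚ) ^ (3 ^ (c + 2) - 1) - 1 = 3 ^ (e + 1) * z := by
    exact_mod_cast congrArg (Int.cast (R := ℚ)) hz
  push_cast
  field_simp
  linear_combination hxq - (β : ℚ) * hzq

theorem Q2b (a : ℕ) (ha : 2 ≤ a) : Cong (2 * a) (S 1 (3 ^ a)) (-3 ^ (2 * a - 1)) := by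
  obtain ⟨c, rfl⟩ := Nat.exists_eq_add_of_le' ha
  have hn : 1 ≤ 3 ^ (c + 2) := Nat.one_le_pow _ _ (by norm_num)
  have e1 : S 1 (3 ^ (c + 2)) =
      (T (2 - 1) (3 ^ (c + 2) - 1) : ℚ) / (-(1 : ℤ) : ℚ) ^ (3 ^ (c + 2) - 1) :=
    S_T 1 one_ne_zero _ hn
  have heven : Even (3 ^ (c + 2) - 1) := by
    rw [Nat.even_sub hn]
    constructor
    · intro h; exact absurd h (Nat.not_even_iff_odd.2 ((by decide : Odd 3).pow))
    · intro h; exact absurd h (by decide)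
  rw [heven.neg_pow, Int.cast_one, one_pow, div_one, show (2 - 1 : ℤ) = 1 by norm_num] at e1
  have h2 := T_eq 1 one_mod (3 ^ (c + 2)) hn
  have h1 := Q2b_core c
  have h3 : ((3 : ℕ) : ℤ_[3]) ^ (2 * (c + 2)) ∣
      ((T 1 (3 ^ (c + 2) - 1) + 3 ^ (2 * c + 3) : ℤ) : ℤ_[3]) := by
    push_cast
    rw [h2]
    obtain ⟨q, hq⟩ := h1
    refine ⟨q, ?_⟩
    push_cast
    have e2 : (3 : ℤ_[3]) ^ (2 * (c + 2)) = 3 ^ (c + 2) * 3 ^ (c + 2) := by ring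
    have e3 : (3 : ℤ_[3]) ^ (2 * c + 3) = 3 ^ (c + 2) * 3 ^ (c + 1) := by ring
    rw [e2, e3]
    linear_combination (3 : ℤ_[3]) ^ (c + 2) * hq
  rw [PadicInt.pow_p_dvd_int_iff] at h3
  obtain ⟨q, hq⟩ := h3
  refine ⟨(q : ℚ), ?_, ?_⟩
  · simp
  · rw [e1, show 2 * (c + 2) - 1 = 2 * c + 3 by omega]
    have hq' : (T 1 (3 ^ (c + 2) - 1) : ℚ) + 3 ^ (2 * c + 3) = 3 ^ (2 * (c + 2)) * q := by
      exact_mod_cast congrArg (Int.cast (R := ℚ)) hq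
    linear_combination hq'

/-- **MP_7f2dba_nt**, Q2(a) and Q2(b). -/
theorem result :
    (∀ m : ℤ, m % 3 = 1 → m ≠ 1 → ∀ a : ℕ, padicValInt 3 (m - 1) < a →
      Cong (padicValInt 3 (m - 1)) (S m (3 ^ a) / 3 ^ a) (-(((m : ℚ) - 1) / 3))) ∧
    (∀ a : ℕ, 2 ≤ a → Cong (2 * a) (S 1 (3 ^ a)) (-3 ^ (2 * a - 1))) :=
  ⟨Q2a, Q2b⟩

end Pool.Agent.Results.MP_7f2dba_nt.QuestionTwo
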